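import Pool.Agent.H92.BF.Targets

/-!
# MP_70ba79_ag: row GLO of the board `bin_modules`: the inequality, summation over all places
-/

set_option autoImplicit false

namespace Pool.Agent.H20.BF2

open MvPolynomial SC Pool.Agent.H27.LV Pool.Agent.H92.BF

theorem pf_GLO (hLO : T_LO) (hLI : T_LI) (hORD : T_ORD) : T_GLO := by
  classical
  intro k K _ _ _ _ _ _ htr m d a α γ hPw hm hd hdm hSol D hD x S hS hDz hR
  obtain ⟨z, hz⟩ : ∃ z, z = aeval x (FF a) := ⟨_, rfl⟩
  obtain ⟨u, hu⟩ : ∃ u, u = z - 1 := ⟨_, rfl⟩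
  rw [← hz] at hDz
  simp only [← hz, ← hu] at hS hR
  have hDu : D u ≠ 0 := by
    rw [hu, map_sub, D.map_one_eq_zero, sub_zero]
    exact hDz
  have hz0 : z ≠ 0 := by
    intro h
    rw [h, map_zero] at hDz
    exact hDz rfl
  obtain ⟨hu1, n, hnf, hns, hnO, hnI⟩ := hORD k K htr D hD u hDu S (fun v hv => (hS v hv).2.2)
  obtain ⟨δ, hδ⟩ : ∃ δ, δ = dlog D u := ⟨_, rfl⟩
  rw [← hδ] at hu1 hnO hnI hR
  have hzu : z = u + 1 := by rw [hu]; ring
  have hδz : δ z = z - 1 := by
    rw [hzu, map_add, δ.map_one_eq_zero, add_zero, hu1]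
    ring
  have hup : u + 1 = z := hzu.symm
  rw [hup] at hnO hnI
  -- the finite set of places
  obtain ⟨R, hRd⟩ : ∃ R, R = RR m d α γ δ x := ⟨_, rfl⟩
  rw [← hRd] at hR
  have f1 := (pfm k K htr z).1
  have f2 := pfi k K htr (Fin 2) x
  have f4 := (pfm k K htr R).1
  obtain ⟨T, hT⟩ : ∃ T : Finset (DV k K), T = S ∪ (f1.toFinset ∪ (f2.toFinset ∪
    (f4.toFinset ∪ hnf.toFinset))) := ⟨_, rfl⟩
  have hST : S ⊆ T := by rw [hT]; exact Finset.subset_union_left
  have hout : ∀ v, v ∉ T → v.ord z = 0 ∧ poleOrder v x = 0 ∧ v.ord R = 0 ∧ n v = 0 := by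
    intro v hv
    rw [hT] at hv
    simp only [Finset.mem_union, Set.Finite.mem_toFinset, Set.mem_ofPred_eq, not_or,
      not_not] at hv
    exact ⟨hv.2.1, hv.2.2.1, hv.2.2.2.1, hv.2.2.2.2⟩
  have e1 : ∑ v ∈ T, v.ord z = 0 := by
    rw [← finsum_eq_sum_of_support_subset _ (s := T) ?_]
    · exact (pfm k K htr z).2
    · intro v hv
      by_contra hc
      exact hv (hout v hc).1
  have e2 : ((deg k x : ℕ) : ℤ) = ∑ v ∈ T, (poleOrder v x : ℤ) := by
    rw [cast_deg htr]
    apply finsum_eq_sum_of_support_subset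
    intro v hv
    by_contra hc
    apply hv
    simp only [(hout v hc).2.1]
    rfl
  have e3 : ∑ v ∈ T, v.ord R = 0 := by
    rw [← finsum_eq_sum_of_support_subset _ (s := T) ?_]
    · exact (pfm k K htr R).2
    · intro v hv
      by_contra hc
      exact hv (hout v hc).2.2.1
  have e4 : ∑ v ∈ T, (n v : ℤ) = canDeg D + S.card := by
    rw [← hns]
    symm
    apply finsum_eq_sum_of_support_subset
    intro v hv
    by_contra hc
    apply hv
    simp only [(hout v hc).2.2.2]
    rfl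
  have hloc : ∀ v ∈ T, v.ord z + ((m : ℤ) - d - 2) * poleOrder v x - 3 * (n v : ℤ) ≤
      v.ord R := by
    intro v _
    by_cases hv : v ∈ S
    · have h := hLI k K v δ m d (n v) a α γ x hPw hm hd hdm hSol (hnI v hv).1
        (by rw [← hz]; exact hz0) (by rw [← hz]; exact (hnI v hv).2)
      rw [← hz, ← hRd] at h
      exact h.resolve_left hR
    · obtain ⟨h0, h1, -⟩ := hS v hv
      have hp : poleOrder v x = 0 := by
        rw [← Nat.le_zero]
        refine poleOrder_le v x 0 fun i => ?_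
        fin_cases i
        · simpa using h0
        · simpa using h1
      have h := hLO k K v δ m d (n v) a α γ x hPw hm hd hSol (hnO v hv).1 (hnO v hv).2.1 h0 h1
        (by rw [← hz]; exact hδz) (by rw [← hz]; exact hz0) (by rw [← hz]; exact (hnO v hv).2.2)
      rw [← hz, ← hRd] at h
      rw [hp]
      have := h.resolve_left hR
      simp only [Nat.cast_zero, mul_zero, add_zero]
      exact this
  have hsum := Finset.sum_le_sum hloc
  simp only [Finset.sum_add_distrib, Finset.sum_sub_distrib, ← Finset.mul_sum] at hsum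
  rw [e1, ← e2, e3, e4] at hsum
  linarith

end Pool.Agent.H20.BF2
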