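import Pool.Agent.H92.BF.Targets

/-!
# MP_70ba79_ag: row LI of the board `bin_modules`: local estimate at the places of `S`
-/

set_option autoImplicit false

namespace Pool.Agent.H20.BF2

open MvPolynomial SC Pool.Agent.H27.LV Pool.Agent.H92.BF

section

variable {k K : Type} [Field k] [Field K] [Algebra k K] (v : DV k K)

/-- power of an element of order at least `e` -/
lemma ge_pow' {e : ℤ} {x : K} (hx : ge v e x) (n : ℕ) : ge v (n * e) (x ^ n) := by
  induction n with
  | zero =>
    rw [pow_zero]
    exact (ge_one v).mono (by simp)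
  | succ n ih =>
    rw [pow_succ]
    refine (ih.mul hx).mono ?_
    push_cast
    linarith

/-- value of a form of degree `d` at elements of order at least `e` -/
lemma ge_form {e : ℤ} {x : Fin 2 → K} (hx : ∀ i, ge v e (x i)) {d : ℕ}
    {P : MvPolynomial (Fin 2) k} (hP : P.IsHomogeneous d) : ge v (d * e) (aeval x P) := by
  rw [MvPolynomial.aeval_def, MvPolynomial.eval₂_eq']
  refine ge_sum v _ _ _ fun s hs => ?_
  have hdeg : s 0 + s 1 = d := by
    have h1 := hP (MvPolynomial.mem_support_iff.1 hs)
    rw [Finsupp.weight_apply, Finsupp.sum_fintype _ _ (by simp)] at h1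
    simpa [Fin.sum_univ_two] using h1
  rw [Fin.prod_univ_two]
  refine ((ge_const v _).mul ((ge_pow' v (hx 0) (s 0)).mul (ge_pow' v (hx 1) (s 1)))).mono ?_
  have h2 : (d : ℤ) = s 0 + s 1 := by rw [← hdeg]; push_cast; ring
  rw [h2]
  linarith

lemma ge_nat (n : ℕ) : ge v 0 (n : K) := by
  rw [← map_natCast (algebraMap k K) n]
  exact ge_const v _

/-- sum of nonnegative integers with at most one positive term -/
lemma sum_one {m : ℕ} (c : Fin m → ℤ) (hc : ∀ i, 0 ≤ c i)
    (h1 : ∀ i j, 0 < c i → 0 < c j → i = j) :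
    (∑ i, c i = 0) ∨ ∃ i, 0 < c i ∧ ∑ j, c j = c i := by
  by_cases h : ∃ i, 0 < c i
  · obtain ⟨i, hi⟩ := h
    refine Or.inr ⟨i, hi, ?_⟩
    rw [Finset.sum_eq_single i]
    · intro j _ hj
      by_contra hne
      have h2 := hc j
      exact hj (h1 j i (by omega) hi)
    · intro h
      exact absurd (Finset.mem_univ i) h
  · left
    push Not at h
    refine Finset.sum_eq_zero fun i _ => ?_
    have h2 := hc i
    have h3 := h i
    omega

lemma aeval_lf (a : Fin 2 → k) (x : Fin 2 → K) :
    aeval x (lf a) = algebraMap k K (a 0) * x 0 + algebraMap k K (a 1) * x 1 := by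
  unfold lf
  simp only [map_add, map_mul, aeval_X, algHom_C]

lemma aeval_FF {m : ℕ} (a : Fin m → Fin 2 → k) (x : Fin 2 → K) :
    aeval x (FF a) = ∏ i, aeval x (lf (a i)) := by
  unfold FF
  rw [map_prod]

end

theorem pf_LI : T_LI := by
  intro k K _ _ _ v δ m d n a α γ x hPw hm hd hdm hSol hδ hz hn
  -- the coordinate of smallest order
  obtain ⟨L, hL⟩ : ∃ L : Fin m → K, L = fun i => aeval x (lf (a i)) := ⟨_, rfl⟩
  have hLi : ∀ i, L i = algebraMap k K (a i 0) * x 0 + algebraMap k K (a i 1) * x 1 := by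
    intro i
    rw [hL]
    exact aeval_lf (a i) x
  have hzL : aeval x (FF a) = ∏ i, L i := by rw [aeval_FF, hL]
  have hL0 : ∀ i, L i ≠ 0 := by
    intro i h
    apply hz
    rw [hzL]
    exact Finset.prod_eq_zero (Finset.mem_univ i) h
  have h01 : x 0 ≠ 0 ∨ x 1 ≠ 0 := by
    by_contra h
    push Not at h
    apply hL0 ⟨0, by omega⟩
    rw [hLi, h.1, h.2]
    simp
  obtain ⟨e, he, j, hj0, hje⟩ : ∃ e : ℤ, (∀ i, ge v e (x i)) ∧ ∃ j, x j ≠ 0 ∧ v.ord (x j) = e := by
    by_cases h0 : x 0 = 0
    · have h1 : x 1 ≠ 0 := h01.resolve_left (by simp [h0])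
      refine ⟨v.ord (x 1), fun i => ?_, 1, h1, rfl⟩
      fin_cases i
      · exact Or.inl h0
      · exact Or.inr le_rfl
    by_cases h1 : x 1 = 0
    · refine ⟨v.ord (x 0), fun i => ?_, 0, h0, rfl⟩
      fin_cases i
      · exact Or.inr le_rfl
      · exact Or.inl h1
    by_cases h2 : v.ord (x 0) ≤ v.ord (x 1)
    · refine ⟨v.ord (x 0), fun i => ?_, 0, h0, rfl⟩
      fin_cases i
      · exact Or.inr le_rfl
      · exact Or.inr h2
    · refine ⟨v.ord (x 1), fun i => ?_, 1, h1, rfl⟩
      push Not at h2
      fin_cases i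
      · exact Or.inr h2.le
      · exact Or.inr le_rfl
  -- orders of the linear forms
  have hLe : ∀ i, ge v e (L i) := by
    intro i
    rw [hLi]
    have h1 := (ge_const v (a i 0)).mul (he 0)
    have h2 := (ge_const v (a i 1)).mul (he 1)
    rw [zero_add] at h1 h2
    exact h1.add h2
  have hLo : ∀ i, e ≤ v.ord (L i) := fun i => (hLe i).resolve_left (hL0 i)
  obtain ⟨c, hc⟩ : ∃ c : Fin m → ℤ, c = fun i => v.ord (L i) - e := ⟨_, rfl⟩
  have hc0 : ∀ i, 0 ≤ c i := by
    intro i
    rw [hc]
    have := hLo i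
    simp only
    omega
  have hLc : ∀ i, v.ord (L i) = e + c i := by
    intro i
    rw [hc]
    simp only
    omega
  have hsum : v.ord (aeval x (FF a)) = m * e + ∑ i, c i := by
    rw [hzL, v.ord_prod _ _ fun i _ => hL0 i, Finset.sum_congr rfl fun i _ => hLc i,
      Finset.sum_add_distrib]
    simp
  have hone : ∀ i i', 0 < c i → 0 < c i' → i = i' := by
    intro i i' hi hi'
    by_contra hne
    have hdet := hPw i i' hne
    have hdet' : algebraMap k K (a i 0 * a i' 1 - a i 1 * a i' 0) ≠ 0 := by
      rw [Ne, map_eq_zero]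
      exact hdet
    have hi1 : ge v (e + 1) (L i) := Or.inr (by rw [hLc]; omega)
    have hi2 : ge v (e + 1) (L i') := Or.inr (by rw [hLc]; omega)
    have hdo : v.ord (algebraMap k K (a i 0 * a i' 1 - a i 1 * a i' 0)) = 0 := v.ord_algebraMap _
    have key : ∀ j, ge v (e + 1) (algebraMap k K (a i 0 * a i' 1 - a i 1 * a i' 0) * x j) := by
      intro j
      fin_cases j
      · have h : algebraMap k K (a i 0 * a i' 1 - a i 1 * a i' 0) * x 0 =
            algebraMap k K (a i' 1) * L i - algebraMap k K (a i 1) * L i' := by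
          rw [hLi, hLi, map_sub, map_mul, map_mul]
          ring
        simp only [Fin.zero_eta]
        rw [h]
        have h1 := (ge_const v (a i' 1)).mul hi1
        have h2 := (ge_const v (a i 1)).mul hi2
        rw [zero_add] at h1 h2
        exact h1.sub h2
      · have h : algebraMap k K (a i 0 * a i' 1 - a i 1 * a i' 0) * x 1 =
            algebraMap k K (a i 0) * L i' - algebraMap k K (a i' 0) * L i := by
          rw [hLi, hLi, map_sub, map_mul, map_mul]
          ring
        simp only [Fin.mk_one]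
        rw [h]
        have h1 := (ge_const v (a i' 0)).mul hi1
        have h2 := (ge_const v (a i 0)).mul hi2
        rw [zero_add] at h1 h2
        exact h2.sub h1
    have h3 := (key j).resolve_left (mul_ne_zero hdet' hj0)
    rw [v.ord_mul' hdet' hj0, hdo, hje] at h3
    omega
  obtain ⟨s, hs⟩ : ∃ s, s = ∑ i, c i := ⟨_, rfl⟩
  rw [← hs] at hsum
  have hs0 : 0 ≤ s := by rw [hs]; exact Finset.sum_nonneg fun i _ => hc0 i
  -- derivatives
  have hδe : ∀ (t : ℤ) (z : K), ge v t z → ge v (t - n) (δ z) := by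
    intro t z hz'
    by_cases h0 : z = 0
    · left
      rw [h0, map_zero]
    · refine (hδ z h0).mono ?_
      have := hz'.resolve_left h0
      omega
  -- the determinant
  obtain ⟨w, hw⟩ : ∃ w, w = wr δ x := ⟨_, rfl⟩
  have hw' : w = x 0 * δ (x 1) - x 1 * δ (x 0) := by rw [hw]; rfl
  have hwge : ge v (2 * e + s - n) w := by
    rcases sum_one c hc0 hone with h | ⟨i, hi, his⟩
    · rw [← hs] at h
      rw [hw']
      have h1 := (he 0).mul (hδe _ _ (he 1))
      have h2 := (he 1).mul (hδe _ _ (he 0))
      exact (h1.sub h2).mono (by omega)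
    · rw [← hs] at his
      have hLd : ge v (e + c i) (L i) := Or.inr (hLc i).ge
      have h1 : algebraMap k K (a i 1) * w = x 0 * δ (L i) - L i * δ (x 0) := by
        rw [hw', hLi, map_add, Derivation.leibniz, Derivation.leibniz, Derivation.map_algebraMap,
          Derivation.map_algebraMap]
        simp only [smul_eq_mul]
        ring
      have h2 : algebraMap k K (a i 0) * w = L i * δ (x 1) - x 1 * δ (L i) := by
        rw [hw', hLi, map_add, Derivation.leibniz, Derivation.leibniz, Derivation.map_algebraMap,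
          Derivation.map_algebraMap]
        simp only [smul_eq_mul]
        ring
      have g1 : ge v (2 * e + s - n) (algebraMap k K (a i 1) * w) := by
        rw [h1]
        have g2 := (he 0).mul (hδe _ _ hLd)
        have g3 := hLd.mul (hδe _ _ (he 0))
        exact (g2.mono (by omega)).sub (g3.mono (by omega))
      have g2 : ge v (2 * e + s - n) (algebraMap k K (a i 0) * w) := by
        rw [h2]
        have g2 := (he 1).mul (hδe _ _ hLd)
        have g3 := hLd.mul (hδe _ _ (he 1))
        exact (g3.mono (by omega)).sub (g2.mono (by omega))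
      have hne : a i 0 ≠ 0 ∨ a i 1 ≠ 0 := by
        by_contra hcon
        push Not at hcon
        apply hL0 i
        rw [hLi, hcon.1, hcon.2]
        simp
      have hdiv : ∀ b : k, b ≠ 0 → ge v (2 * e + s - n) (algebraMap k K b * w) →
          ge v (2 * e + s - n) w := by
        intro b hb hg
        have h3 := (ge_const v b⁻¹).mul hg
        rw [zero_add, ← mul_assoc, ← map_mul, inv_mul_cancel₀ hb, map_one, one_mul] at h3
        exact h3
      rcases hne with h | h
      · exact hdiv _ h g2
      · exact hdiv _ h g1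
  -- the three terms
  have hα := ge_form v he hSol.ha
  have hγ := ge_form v he hSol.hg
  have hd2 : ((d - 2 : ℕ) : ℤ) = d - 2 := by omega
  rw [hd2] at hγ
  have hδα := hδe _ _ hα
  have hδw := hδe _ _ hwge
  have hRR : RR m d α γ δ x = (d : K) * aeval x α * (δ w - w) +
      2 * ((m : K) - 1) * δ (aeval x α) * w - (d : K) * aeval x γ * w ^ 2 := by
    rw [hw]
    rfl
  have hmain : ge v ((d + 2 : ℤ) * e + s - 2 * n) (RR m d α γ δ x) := by
    rw [hRR]
    have hn0 : (0 : ℤ) ≤ n := Int.natCast_nonneg n
    have t1 : ge v ((d + 2 : ℤ) * e + s - 2 * n) ((d : K) * aeval x α * (δ w - w)) := by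
      have h1 := ((ge_nat v d).mul hα).mul (hδw.sub (hwge.mono (by omega)))
      exact h1.mono (by linarith)
    have t2 : ge v ((d + 2 : ℤ) * e + s - 2 * n) (2 * ((m : K) - 1) * δ (aeval x α) * w) := by
      have h2 : ge v 0 (2 : K) := by exact_mod_cast ge_nat v 2
      have h3 : ge v 0 ((m : K) - 1) := (ge_nat v m).sub (ge_one v)
      have h1 := ((h2.mul h3).mul hδα).mul hwge
      exact h1.mono (by linarith)
    have t3 : ge v ((d + 2 : ℤ) * e + s - 2 * n) ((d : K) * aeval x γ * w ^ 2) := by
      have h1 := ((ge_nat v d).mul hγ).mul (ge_pow' v hwge 2)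
      refine h1.mono ?_
      push_cast
      linarith
    exact (t1.add t2).sub t3
  refine hmain.mono ?_
  have hp1 : poleOrder v x ≤ (-e).toNat := by
    refine poleOrder_le v x _ fun i => ?_
    by_cases h0 : x i = 0
    · rw [h0, v.ord_zero]
      omega
    · have := (he i).resolve_left h0
      omega
  have hp2 : -(poleOrder v x : ℤ) ≤ e := by
    rw [← hje]
    exact npole_le v x j
  have hmd : (0 : ℤ) ≤ (m : ℤ) - d - 2 := by omega
  rw [hsum]
  by_cases hepos : 0 < e
  · have hp : poleOrder v x = 0 := by omega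
    rw [hp]
    have hm0 : (0 : ℤ) < m := by omega
    have h1 : 0 < (m : ℤ) * e := mul_pos hm0 hepos
    have h2 := hn (by rw [hsum]; omega)
    rw [hsum] at h2
    have hd0 : (0 : ℤ) ≤ d * e := mul_nonneg (by omega) hepos.le
    push_cast
    nlinarith
  · have hp : (poleOrder v x : ℤ) = -e := by omega
    rw [hp]
    have hn0 : (0 : ℤ) ≤ n := Int.natCast_nonneg n
    nlinarith

end Pool.Agent.H20.BF2
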